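import Pool.Agent.K4W.StmtsU

/-!
# Squad K4W, row UEP (helper67): the series for `U (f N t 0) (2 μ) 2`
-/

set_option autoImplicit false

namespace Pool.Agent.K4W.H67

open Pool.Agent.Helper69_Weyl (ee W)
open Pool.Agent.K4W

theorem ga_nonneg (N : ℕ) (x : ℝ) : 0 ≤ ga N x := (Real.exp_pos _).le

theorem uep (hGA : UgaStmt) (hSM : UsmStmt) (hEX : UexStmt) (hQI : UqiStmt) (hTH : UthStmt) :
    UepStmt := by
  intro N μ t hN hμ
  have hw : Summable fun s : ℤ => ga N (2 * (s : ℝ)) := by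
    have h := (hGA N 2 0 hN (by norm_num)).1
    have e : (fun s : ℤ => ga N (2 * (s : ℝ))) =
        fun s : ℤ => ga N (((2 : ℕ) : ℝ) * (s : ℝ) + 0) := by
      funext s
      congr 1
      push_cast
      ring
    rw [e]
    exact h
  have hv : Summable fun s : ℤ => ga N (2 * (μ : ℝ) * (s : ℝ)) := by
    have h := (hGA N (2 * μ) 0 hN (by omega)).1
    have e : (fun s : ℤ => ga N (2 * (μ : ℝ) * (s : ℝ))) =
        fun s : ℤ => ga N (((2 * μ : ℕ) : ℝ) * (s : ℝ) + 0) := by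
      funext s
      congr 1
      push_cast
      ring
    rw [e]
    exact h
  have h1 : Summable fun p : ℤ × ℤ => ga N (2 * (p.2 : ℝ)) * ga N (2 * (μ : ℝ) * (p.1 : ℝ)) := by
    have h := Summable.mul_of_nonneg hv hw (fun _ => ga_nonneg _ _) (fun _ => ga_nonneg _ _)
    have e : (fun p : ℤ × ℤ => ga N (2 * (p.2 : ℝ)) * ga N (2 * (μ : ℝ) * (p.1 : ℝ))) =
        fun p : ℤ × ℤ => ga N (2 * (μ : ℝ) * (p.1 : ℝ)) * ga N (2 * (p.2 : ℝ)) := by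
      funext p
      exact mul_comm _ _
    rw [e]
    exact h
  have h2 : ∀ p : ℤ × ℤ, ‖GG N μ t p‖ ≤
      200 * (N : ℝ) * (ga N (2 * (p.2 : ℝ)) * ga N (2 * (μ : ℝ) * (p.1 : ℝ))) := by
    intro p
    unfold GG
    rw [norm_mul, norm_mul, hTH.2 N μ _ _ p.1, Complex.norm_real, Real.norm_of_nonneg (ga_nonneg _ _)]
    have h3 := hTH.1 N (48 * t * (μ : ℝ) * (p.1 : ℝ) * (p.2 : ℝ)) hN
    have h4 : ga N (2 * (p.2 : ℝ)) * (ga N (2 * (μ : ℝ) * (p.1 : ℝ)) *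
        ‖th N (48 * t * (μ : ℝ) * (p.1 : ℝ) * (p.2 : ℝ))‖) ≤
        ga N (2 * (p.2 : ℝ)) * (ga N (2 * (μ : ℝ) * (p.1 : ℝ)) * (200 * (N : ℝ))) :=
      mul_le_mul_of_nonneg_left (mul_le_mul_of_nonneg_left h3 (ga_nonneg _ _)) (ga_nonneg _ _)
    calc ga N (2 * (p.2 : ℝ)) * (ga N (2 * (μ : ℝ) * (p.1 : ℝ)) *
          ‖th N (48 * t * (μ : ℝ) * (p.1 : ℝ) * (p.2 : ℝ))‖)
        ≤ ga N (2 * (p.2 : ℝ)) * (ga N (2 * (μ : ℝ) * (p.1 : ℝ)) * (200 * (N : ℝ))) := h4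
      _ = 200 * (N : ℝ) * (ga N (2 * (p.2 : ℝ)) * ga N (2 * (μ : ℝ) * (p.1 : ℝ))) := by ring
  refine ⟨h1, h2, ?_, ?_⟩
  · exact Summable.of_nonneg_of_le (fun _ => norm_nonneg _) h2 (h1.mul_left _)
  · have h3 := (hEX (f N t 0) (2 * μ) 2 (by omega) (by norm_num) (hSM.2.1 N t 0 hN)).2
    rw [h3, ← (Equiv.prodComm ℤ ℤ).tsum_eq (fun p => GG N μ t p)]
    apply tsum_congr
    rintro ⟨k, h⟩
    have e1 : ∑' x : ℤ, F4 (f N t 0) (2 * μ) 2 k h x =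
        ∑' s : ℤ, F4 (f N t 0) (2 * μ) 2 k h (s - (μ : ℤ) * h - k) := by
      rw [← (Equiv.subRight ((μ : ℤ) * h + k)).tsum_eq (fun x => F4 (f N t 0) (2 * μ) 2 k h x)]
      apply tsum_congr
      intro s
      rw [Equiv.subRight_apply, sub_sub]
    change ∑' x : ℤ, F4 (f N t 0) (2 * μ) 2 k h x = GG N μ t (h, k)
    rw [e1]
    have e2 : ∀ s : ℤ, F4 (f N t 0) (2 * μ) 2 k h (s - (μ : ℤ) * h - k) =
        (ga N (2 * (k : ℝ)) : ℂ) *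
        (ps (16 * t * (h : ℝ) ^ 3 * (k : ℝ)) (16 * t * (h : ℝ) * (k : ℝ) ^ 3)
          (4 * Real.pi * (h : ℝ) ^ 2 / (N : ℝ) ^ 2) μ *
          ((ga N (2 * (s : ℝ)) : ℂ) *
            ee (48 * t * (μ : ℝ) * (h : ℝ) * (k : ℝ) * (s : ℝ) ^ 2))) :=
      fun s => hQI N μ t h k s
    rw [tsum_congr e2, tsum_mul_left, tsum_mul_left]
    rfl

end Pool.Agent.K4W.H67
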